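import Pool.Agent.Helper48.AX.Defs

/-!
# AX: sorting disjoint arcs on the circle
-/

set_option autoImplicit false

open scoped MeasureTheory ENNReal
open Complex

noncomputable section

namespace AX

/-- key step: the next point is the next start -/
theorem hc_key {n : ℕ} {S : Fin (n + 2) → Set ℝ} {A B : Fin (n + 2) → ℝ}
    {D : Fin (n + 2) → Fin (n + 2) → ℝ} {t : ℝ}
    (hS : ∀ i θ, θ ∈ S i ↔ ∃ z : ℤ, A i + t * z ≤ θ ∧ θ ≤ B i + t * z)
    (hdis : ∀ i j, i ≠ j → Disjoint (S i) (S j))
    (hnext : ∀ i, ∃ j, j ≠ i ∧ 0 < D i j ∧ B i + D i j ∈ S j ∧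
      ∀ k, ∀ θ ∈ S k, ¬ (B i < θ ∧ θ < B i + D i j))
    {i m : Fin (n + 2)} (him : i ≠ m) {N : ℝ} (hN : N ∈ S m) (hAN : A i < N)
    (hno : ∀ (l : Fin (n + 2)) (z : ℤ), ¬ (A i < A l + t * z ∧ A l + t * z < N))
    (hAB : A i ≤ B i) :
    B i + D i m = N := by
  obtain ⟨j, hji, hD, hP, hgap⟩ := hnext i
  have hBN : B i < N := by
    by_contra h
    push Not at h
    have : N ∈ S i := (hS i N).2 ⟨0, by simpa using hAN.le, by simpa using h⟩
    exact Set.disjoint_left.1 (hdis i m him) this hN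
  have hPN : B i + D i j ≤ N := by
    by_contra h
    push Not at h
    exact hgap m N hN ⟨hBN, h⟩
  obtain ⟨z, hz1, hz2⟩ := (hS j _).1 hP
  have hPz : A j + t * z = B i + D i j := by
    by_contra h
    have hlt : A j + t * z < B i + D i j := lt_of_le_of_ne hz1 h
    obtain ⟨θ, hθ1, hθ2⟩ := exists_between (max_lt (show B i < B i + D i j by linarith) hlt)
    have h1 : B i < θ := (le_max_left _ _).trans_lt hθ1
    have h2 : A j + t * z < θ := (le_max_right _ _).trans_lt hθ1
    exact hgap j θ ((hS j θ).2 ⟨z, h2.le, (hθ2.le.trans hz2)⟩) ⟨h1, hθ2⟩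
  have hPeq : B i + D i j = N := by
    rcases lt_or_eq_of_le hPN with h | h
    · exact absurd ⟨by rw [hPz]; linarith, by rw [hPz]; exact h⟩ (hno j z)
    · exact h
  have hjm : j = m := by
    by_contra h
    rw [hPeq] at hP
    exact Set.disjoint_left.1 (hdis j m h) hP hN
  rw [← hjm]
  exact hPeq

theorem st_HC : ST_HC := by
  intro n S a b D hab hba hS hdis hnext
  have ht : (0 : ℝ) < 2 * Real.pi := by positivity
  set t : ℝ := 2 * Real.pi with htdef
  -- normalise the starts
  have hz : ∀ i, ∃ z : ℤ, a 0 ≤ a i + t * z ∧ a i + t * z < a 0 + t := by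
    intro i
    obtain ⟨z, hz, -⟩ := existsUnique_add_zsmul_mem_Ico ht (a i) (a 0)
    refine ⟨z, ?_, ?_⟩
    · have := hz.1
      simp only [zsmul_eq_mul] at this
      linarith [mul_comm (z : ℝ) t]
    · have := hz.2
      simp only [zsmul_eq_mul] at this
      linarith [mul_comm (z : ℝ) t]
  choose z hz1 hz2 using hz
  obtain ⟨A, hA⟩ : ∃ A : Fin (n + 2) → ℝ, A = fun i => a i + t * z i := ⟨_, rfl⟩
  obtain ⟨B, hB⟩ : ∃ B : Fin (n + 2) → ℝ, B = fun i => b i + t * z i := ⟨_, rfl⟩
  have hAi : ∀ i, A i = a i + t * z i := fun i => by rw [hA]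
  have hBi : ∀ i, B i = b i + t * z i := fun i => by rw [hB]
  have hS' : ∀ i θ, θ ∈ S i ↔ ∃ w : ℤ, A i + t * w ≤ θ ∧ θ ≤ B i + t * w := by
    intro i θ
    rw [hS i θ]
    constructor
    · rintro ⟨w, h1, h2⟩
      refine ⟨w - z i, ?_, ?_⟩
      · rw [hAi]; push_cast; linarith
      · rw [hBi]; push_cast; linarith
    · rintro ⟨w, h1, h2⟩
      refine ⟨w + z i, ?_, ?_⟩
      · rw [hAi] at h1; push_cast; linarith
      · rw [hBi] at h2; push_cast; linarith
  have hper : ∀ i θ (w : ℤ), θ ∈ S i → θ + t * w ∈ S i := by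
    intro i θ w h
    obtain ⟨v, h1, h2⟩ := (hS i θ).1 h
    refine (hS i _).2 ⟨v + w, ?_, ?_⟩
    · push_cast; linarith
    · push_cast; linarith
  have hnext' : ∀ i, ∃ j, j ≠ i ∧ 0 < D i j ∧ B i + D i j ∈ S j ∧
      ∀ k, ∀ θ ∈ S k, ¬ (B i < θ ∧ θ < B i + D i j) := by
    intro i
    obtain ⟨j, hji, hD, hP, hgap⟩ := hnext i
    refine ⟨j, hji, hD, ?_, ?_⟩
    · have := hper j _ (z i) hP
      rw [hBi]
      have h2 : b i + t * z i + D i j = b i + D i j + t * z i := by ring
      rw [h2]; exact this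
    · rintro k θ hθ ⟨h1, h2⟩
      refine hgap k _ (hper k θ (-z i) hθ) ⟨?_, ?_⟩
      · rw [hBi] at h1; push_cast; linarith
      · rw [hBi] at h2; push_cast; linarith
  have hAB : ∀ i, A i ≤ B i := fun i => by rw [hAi, hBi]; linarith [hab i]
  have hBA : ∀ i, B i < A i + t := fun i => by rw [hAi, hBi]; linarith [hba i]
  have hA1 : ∀ i, a 0 ≤ A i := fun i => by rw [hAi]; exact hz1 i
  have hA2 : ∀ i, A i < a 0 + t := fun i => by rw [hAi]; exact hz2 i
  have hAS : ∀ i, A i ∈ S i := fun i => (hS' i _).2 ⟨0, by simp, by simpa using hAB i⟩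
  have hinj : Function.Injective A := by
    intro i j hij
    by_contra h
    exact Set.disjoint_left.1 (hdis i j h) (hAS i) (by rw [hij]; exact hAS j)
  have hmono : StrictMono (A ∘ Tuple.sort A) :=
    (Tuple.monotone_sort A).strictMono_of_injective (hinj.comp (Tuple.sort A).injective)
  obtain ⟨σ, hσ⟩ : ∃ σ : Equiv.Perm (Fin (n + 2)), σ = Tuple.sort A := ⟨_, rfl⟩
  rw [← hσ] at hmono
  have hlt : ∀ k l, A (σ k) < A (σ l) ↔ k < l := fun k l => hmono.lt_iff_lt
  have hle : ∀ k l, A (σ k) ≤ A (σ l) ↔ k ≤ l := fun k l => hmono.le_iff_le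
  -- the first one
  have hA0 : A 0 = a 0 := by
    have h1 := hz1 0
    have h2 := hz2 0
    have h3 : (z 0 : ℝ) < 1 := by
      by_contra h
      push Not at h
      have := mul_le_mul_of_nonneg_left h ht.le
      linarith
    have h4 : (0 : ℝ) ≤ z 0 := by
      by_contra h
      push Not at h
      have := mul_neg_of_pos_of_neg ht h
      linarith
    have h5 : z 0 = 0 := by
      have h3' : z 0 < 1 := by exact_mod_cast h3
      have h4' : 0 ≤ z 0 := by exact_mod_cast h4
      omega
    rw [hAi, h5]; simp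
  have hfirst : A (σ 0) = a 0 := by
    refine le_antisymm ?_ (hA1 _)
    have h := (hle 0 (σ.symm 0)).2 (Fin.zero_le _)
    rw [σ.apply_symm_apply, hA0] at h
    exact h
  -- integers
  have hzero : ∀ (l : Fin (n + 2)) (w : ℤ), a 0 < A l + t * w → A l + t * w < a 0 + t → w = 0 := by
    intro l w h1 h2
    have h3 : (w : ℝ) < 1 := by
      by_contra h
      push Not at h
      have := mul_le_mul_of_nonneg_left h ht.le
      linarith [hA1 l]
    have h4 : (-1 : ℝ) < w := by
      by_contra h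
      push Not at h
      have := mul_le_mul_of_nonneg_left h ht.le
      linarith [hA2 l]
    have h3' : w < 1 := by exact_mod_cast h3
    have h4' : -1 < w := by exact_mod_cast h4
    omega
  refine ⟨σ, fun k => A (σ k), fun k => B (σ k), fun k => hAB _, ?_, ?_, ?_⟩
  · intro k
    ext θ
    simp only [Set.mem_inter_iff, Set.mem_Ico, Set.mem_Icc]
    constructor
    · rintro ⟨h1, h2, h3⟩
      obtain ⟨w, h4, h5⟩ := (hS' _ _).1 h1
      have h6 : (w : ℝ) < 1 := by
        by_contra h
        push Not at h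
        have := mul_le_mul_of_nonneg_left h ht.le
        linarith
      have h7 : (-1 : ℝ) < w := by
        by_contra h
        push Not at h
        have := mul_le_mul_of_nonneg_left h ht.le
        linarith [hBA (σ k)]
      have h8 : w = 0 := by
        have h6' : w < 1 := by exact_mod_cast h6
        have h7' : -1 < w := by exact_mod_cast h7
        omega
      subst h8
      simp only [Int.cast_zero, mul_zero, add_zero] at h4 h5
      exact ⟨h4, h5⟩
    · rintro ⟨h1, h2⟩
      exact ⟨(hS' _ _).2 ⟨0, by simpa using h1, by simpa using h2⟩, h1,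
        h2.trans_lt (hBA _)⟩
  · intro k
    have hkk : k.castSucc < k.succ := Fin.castSucc_lt_succ
    refine hc_key hS' hdis hnext' ?_ (hAS _) ((hlt _ _).2 hkk) ?_ (hAB _)
    · intro h
      exact hkk.ne (σ.injective h)
    · rintro l w ⟨h1, h2⟩
      have h3 := hzero l w ((hA1 _).trans_lt h1) (h2.trans (hA2 _))
      subst h3
      simp only [Int.cast_zero, mul_zero, add_zero] at h1 h2
      rw [← σ.apply_symm_apply l, hlt] at h1 h2
      rw [Fin.lt_def] at h1 h2
      simp only [Fin.val_castSucc, Fin.val_succ] at h1 h2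
      omega
  · have h0S : a 0 + t ∈ S (σ 0) := by
      have := hper (σ 0) _ 1 (hAS (σ 0))
      rw [hfirst] at this
      simpa using this
    show B (σ (Fin.last (n + 1))) + D (σ (Fin.last (n + 1))) (σ 0) = A (σ 0) + t
    rw [hfirst]
    refine hc_key hS' hdis hnext' ?_ h0S (hA2 _) ?_ (hAB _)
    · intro h
      have := σ.injective h
      exact (Fin.last_pos (n := n)).ne' this
    · rintro l w ⟨h1, h2⟩
      have h3 := hzero l w ((hA1 _).trans_lt h1) h2
      subst h3
      simp only [Int.cast_zero, mul_zero, add_zero] at h1 h2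
      rw [← σ.apply_symm_apply l, hlt] at h1
      exact absurd h1 (not_lt.2 (Fin.le_last _))

end AX
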