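import Pool.Agent.Helper48.AX.Defs

/-!
# AX: cyclic order of the disks along the boundary
-/

set_option autoImplicit false

open scoped MeasureTheory ENNReal
open Complex

noncomputable section

namespace AX

theorem hull_dl_pos {r : ℝ} (hr : 0 < r) {x y : ℂ} (h : x ≠ y) : 0 < dl r x y := by
  unfold dl
  have : 0 < dist x y := dist_pos.2 h
  exact Real.arcsin_pos.2 (by positivity)

theorem hull_disj {n : ℕ} {r : ℝ} {c : Fin n → ℂ} (hT : ST_TSUP) (hr : 0 < r)
    (hc : Function.Injective c) {i j : Fin n} (hij : i ≠ j) : Disjoint (T r c i) (T r c j) := by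
  rw [Set.disjoint_left]
  intro θ h1 h2
  have h3 := (hT n r c i θ hr).1 h1 j
  have h4 := (hT n r c j θ hr).1 h2 i
  unfold Sup at h3 h4
  have h5 : ((c i - c j) * (starRingEnd ℂ) (e θ)).re = -((c j - c i) * (starRingEnd ℂ) (e θ)).re := by
    rw [← Complex.neg_re]
    congr 1
    ring
  rw [h5, dist_comm (c j) (c i)] at h4
  have h6 : dist (c i) (c j) ^ 2 ≤ 0 := by nlinarith
  have h7 : dist (c i) (c j) = 0 := by
    have := sq_nonneg (dist (c i) (c j))
    exact pow_eq_zero_iff (n := 2) (by norm_num) |>.1 (le_antisymm h6 this)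
  exact hij (hc (dist_eq_zero.1 h7))

theorem st_HULL (hA : ST_HA) (hB : ST_HB) (hC : ST_HC) (hT : ST_TSUP) : ST_HULL := by
  intro n r c hr hc hne
  have h1 : ∀ i, ∃ a b : ℝ, a ≤ b ∧ b < a + Real.pi ∧
    ∀ θ, θ ∈ T r c i ↔ ∃ z : ℤ, a + 2 * Real.pi * z ≤ θ ∧ θ ≤ b + 2 * Real.pi * z :=
    fun i => hA n r c i hr hc (hne i)
  choose a b hab hba hS using h1
  have hpi := Real.pi_pos
  refine hC n (fun i => T r c i) a b (fun i j => 2 * dl r (c i) (c j)) hab
    (fun i => by linarith [hba i]) hS (fun i j hij => hull_disj hT hr hc hij) ?_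
  intro i
  have hbT : b i ∈ T r c i := (hS i _).2 ⟨0, by simpa using hab i, by simp⟩
  obtain ⟨j, hji, h2, h3⟩ := hB n r c i (b i) hr hc hbT ⟨Real.pi, hpi, by
    intro θ h4 h5 h6
    obtain ⟨z, h7, h8⟩ := (hS i θ).1 h6
    have h9 : (0 : ℝ) < z := by
      by_contra h
      push Not at h
      have := mul_nonpos_of_nonneg_of_nonpos (show (0 : ℝ) ≤ 2 * Real.pi by positivity) h
      linarith
    have h10 : (1 : ℝ) ≤ z := by
      have : 0 < z := by exact_mod_cast h9
      have : 1 ≤ z := by omega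
      exact_mod_cast this
    have h11 := mul_le_mul_of_nonneg_left h10 (show (0 : ℝ) ≤ 2 * Real.pi by positivity)
    linarith [hba i]⟩
  have h4 : 0 < dl r (c i) (c j) := hull_dl_pos hr (fun h => hji (hc h.symm))
  exact ⟨j, hji, by simpa using h4, h2, h3⟩

end AX
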