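import Pool.Agent.Helper48.AX.Defs

/-!
# AX: every closed tour bounds the perimeter
-/

set_option autoImplicit false

open scoped MeasureTheory ENNReal
open Complex

noncomputable section

namespace AX

theorem tour_e_add (θ : ℝ) : e (θ + 2 * Real.pi) = e θ := by
  unfold e
  have : ((θ + 2 * Real.pi : ℝ) : ℂ) * I = (θ : ℂ) * I + 2 * (Real.pi : ℂ) * I := by
    push_cast; ring
  rw [this, Complex.exp_add, Complex.exp_two_pi_mul_I, mul_one]

theorem tour_sup_add {r : ℝ} {a b : ℂ} {t : ℝ} (h : Sup r a t b) :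
    Sup r a (t + 2 * Real.pi) b := by
  unfold Sup at h ⊢
  rw [tour_e_add]
  exact h

theorem tour_dl_comm (r : ℝ) (x y : ℂ) : dl r x y = dl r y x := by
  unfold dl
  rw [dist_comm]

theorem st_TOUR (hF : ST_FORM) (hQ : ST_Q) (hK : ST_KAL) (hT : ST_TSUP) : ST_TOUR := by
  intro n r c f hr hc hne hf
  obtain ⟨σ, t, hmono, hlast, hTk, hper⟩ := hF n r c hr hc hne
  rw [hper]
  refine ENNReal.ofReal_le_ofReal ?_
  have hsup : ∀ k j, Sup r (c (σ k)) (t k) (c (σ j)) := fun k j =>
    (hT _ r c (σ k) (t k) hr).1 (hTk k) (σ j)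
  have hne' : ∀ i j, i ≠ j → c (σ i) ≠ c (σ j) := fun i j hij h => hij (σ.injective (hc h))
  have key := hK (n + 1) (fun i j => dl r (c (σ i)) (c (σ j)))
    (fun i j => tour_dl_comm _ _ _) (by
      intro i j k l hij hjk hkl
      have h1 := hmono hij
      have h2 := hmono hjk
      have h3 := hmono hkl
      have h4 : t l < t i + 2 * Real.pi := by
        have h5 : t l ≤ t (Fin.last (n + 1)) := hmono.monotone (Fin.le_last l)
        have h6 : t 0 ≤ t i := hmono.monotone (Fin.zero_le i)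
        linarith
      have hik := hij.trans hjk
      have hil := hik.trans hkl
      have hjl := hjk.trans hkl
      constructor
      · exact hQ r (c (σ i)) (c (σ j)) (c (σ k)) (c (σ l)) (t i) (t j) (t k) (t l) hr h1 h2 h3 h4
          (hne' _ _ hij.ne) (hne' _ _ hik.ne) (hne' _ _ hil.ne) (hne' _ _ hjk.ne)
          (hne' _ _ hjl.ne) (hne' _ _ hkl.ne)
          (hsup _ _) (hsup _ _) (hsup _ _) (hsup _ _) (hsup _ _) (hsup _ _)
          (hsup _ _) (hsup _ _) (hsup _ _) (hsup _ _) (hsup _ _) (hsup _ _)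
      · have := hQ r (c (σ j)) (c (σ k)) (c (σ l)) (c (σ i)) (t j) (t k) (t l)
          (t i + 2 * Real.pi) hr h2 h3 h4 (by linarith)
          (hne' _ _ hjk.ne) (hne' _ _ hjl.ne) (hne' _ _ hij.ne') (hne' _ _ hkl.ne)
          (hne' _ _ hik.ne') (hne' _ _ hil.ne')
          (hsup _ _) (hsup _ _) (hsup _ _) (hsup _ _) (hsup _ _) (hsup _ _)
          (hsup _ _) (hsup _ _) (hsup _ _)
          (tour_sup_add (hsup _ _)) (tour_sup_add (hsup _ _)) (tour_sup_add (hsup _ _))
        rw [tour_dl_comm r (c (σ l)) (c (σ i)), tour_dl_comm r (c (σ k)) (c (σ i))] at this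
        show dl r (c (σ i)) (c (σ l)) + dl r (c (σ j)) (c (σ k)) ≤
          dl r (c (σ i)) (c (σ k)) + dl r (c (σ j)) (c (σ l))
        linarith)
    (fun k => σ.symm (f k)) (σ.symm.injective.comp hf)
  have h1 : tour (fun i j => dl r (c (σ i)) (c (σ j))) (fun k => σ.symm (f k))
      = tour (fun i j => dl r (c i) (c j)) f := by
    unfold tour
    simp only [Equiv.apply_symm_apply]
  have h2 : tour (fun i j => dl r (c (σ i)) (c (σ j))) (fun i => i)
      = tour (fun i j => dl r (c i) (c j)) (fun k => σ k) := by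
    unfold tour
    rfl
  rw [h1, h2] at key
  have h3 : 0 ≤ 2 * r := by linarith
  exact mul_le_mul_of_nonneg_left (by linarith) h3

end AX
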